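import Pool.Agent.DQ2.Stmts

set_option autoImplicit false

/-!
# Squad DQ2 (MP_366d03_ag), row DO3: dominance for `d = 3`
-/

namespace Pool.Agent.DQ2.H19

open MvPolynomial

theorem lf_tg (hTAY : TAY) {R : Type} [CommRing R] {N : ℕ} (F : MvPolynomial (Fin N) R)
    (x c v : Fin N → R) : lf F x (tg F x c v) = 0 := by
  have h := (hTAY R N F).1 x v c (lf F x c) (-lf F x v)
  have e : (fun j => lf F x c * v j + -lf F x v * c j) = tg F x c v := by
    funext j
    unfold tg
    ring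
  rw [e] at h
  rw [h]
  ring

theorem eval_sec (hTAY : TAY) {R : Type} [CommRing R] {N : ℕ} (F : MvPolynomial (Fin N) R)
    (hF : F.IsHomogeneous 3) (p v : Fin N → R) (hp : eval p F = 0) (hv : lf F p v = 0) :
    eval (sec F p v) F = 0 := by
  have h := ((hTAY R N F).2.2 hF p v (eval v F) (-lf F v p)).2.2
  have e : (fun j => eval v F * p j + -lf F v p * v j) = sec F p v := by
    funext j
    unfold sec
    ring
  rw [e, hp, hv] at h
  rw [h]
  ring

theorem do3 (hNAT : NAT) (hTAY : TAY) (hPSD : PSD) : DO3 := by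
  intro E _ _ N F g p y a₁ a₂ a₃ hF hirr hp hcrit hy hg
  -- the points
  set Qs : Fin N → E := qq F p a₁ with hQs
  set Q1 : Fin N → E := qq F p a₂ with hQ1
  set y0 : Fin N → E := phi3 F p a₁ a₃ with hy0
  set e0 : Fin N → E := ee N E 0 with he0
  have c1 : lf F p e0 ≠ 0 := fun h => hcrit (by
    unfold crit
    rw [← he0, h]
    ring)
  have c2 : lf F Qs e0 ≠ 0 := fun h => hcrit (by
    unfold crit
    rw [← hQs, ← he0, h]
    ring)
  have c3 : lf F y0 Qs ≠ 0 := fun h => hcrit (by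
    unfold crit
    rw [← hQs, ← hy0, h]
    ring)
  have c4 : lf F Q1 y0 ≠ 0 := fun h => hcrit (by
    unfold crit
    rw [← hQ1, ← hy0, h]
    ring)
  set v0 : Fin N → E := tg F p e0 a₁ with hv0
  set v1 : Fin N → E := tg F p e0 a₂ with hv1
  have l0 : lf F p v0 = 0 := lf_tg hTAY F p e0 a₁
  have l1 : lf F p v1 = 0 := lf_tg hTAY F p e0 a₂
  have FQs : eval Qs F = 0 := eval_sec hTAY F hF p v0 hp l0
  set w0 : Fin N → E := tg F Qs e0 a₃ with hw0
  have lw : lf F Qs w0 = 0 := lf_tg hTAY F Qs e0 a₃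
  have Fy0 : eval y0 F = 0 := eval_sec hTAY F hF Qs w0 FQs lw
  have lQy : lf F Qs y0 = 0 := by
    have h := (hTAY E N F).1 Qs Qs w0 (eval w0 F) (-lf F w0 Qs)
    have e : (fun j => eval w0 F * Qs j + -lf F w0 Qs * w0 j) = y0 := by
      funext j
      change _ = eval w0 F * Qs j - lf F w0 Qs * w0 j
      ring
    rw [e, lw, ((hTAY E N F).2.2 hF Qs Qs 0 0).1, FQs] at h
    rw [h]
    ring
  -- the moving point
  let Qf : E → Fin N → E := fun s => sec F p (fun j => v0 j + s * (v1 j - v0 j))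
  have Qf0 : Qf 0 = Qs := by
    change sec F p (fun j => v0 j + 0 * (v1 j - v0 j)) = sec F p v0
    congr 1
    funext j
    ring
  have Qf1 : Qf 1 = Q1 := by
    change sec F p (fun j => v0 j + 1 * (v1 j - v0 j)) = sec F p v1
    congr 1
    funext j
    ring
  let ι : E →+* Polynomial (MvPolynomial (Fin N) E) :=
    (Polynomial.C : MvPolynomial (Fin N) E →+* _).comp (C : E →+* MvPolynomial (Fin N) E)
  let F3 : MvPolynomial (Fin N) (Polynomial (MvPolynomial (Fin N) E)) := map ι F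
  let Q3 : Fin N → Polynomial (MvPolynomial (Fin N) E) :=
    sec F3 (fun j => ι (p j)) (fun j => ι (v0 j) + Polynomial.X * ι (v1 j - v0 j))
  let Y3 : Fin N → Polynomial (MvPolynomial (Fin N) E) := fun j => Polynomial.C (X j)
  let A : Polynomial (MvPolynomial (Fin N) E) := lf F3 Q3 Y3
  let B : Polynomial (MvPolynomial (Fin N) E) := lf F3 Y3 Q3 * lf F3 Q3 (fun j => ι (e0 j))
  have hθ : ∀ (y : Fin N → E) (s : E), ∃ θ : Polynomial (MvPolynomial (Fin N) E) →+* E,
      (∀ P, θ P = ev2 P y s) ∧ (∀ a, θ (ι a) = a) ∧ (∀ j, θ (Y3 j) = y j) ∧ θ Polynomial.X = s := by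
    intro y s
    refine ⟨Polynomial.eval₂RingHom (eval y : MvPolynomial (Fin N) E →+* E) s, fun P => rfl,
      fun a => ?_, fun j => ?_, ?_⟩
    · simp [ι]
    · simp [Y3]
    · simp
  have hQ3 : ∀ (y : Fin N → E) (s : E) (θ : Polynomial (MvPolynomial (Fin N) E) →+* E),
      (∀ a, θ (ι a) = a) → θ Polynomial.X = s → map θ F3 = F ∧ (fun j => θ (Q3 j)) = Qf s := by
    intro y s θ h1 h2
    have h3 : map θ F3 = F := by
      change map θ (map ι F) = F
      rw [map_map]
      have : θ.comp ι = RingHom.id E := RingHom.ext h1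
      rw [this, map_id]
    refine ⟨h3, ?_⟩
    funext j
    change θ (sec F3 (fun j => ι (p j)) (fun j => ι (v0 j) + Polynomial.X * ι (v1 j - v0 j)) j) = _
    rw [(hNAT _ _ θ N F3).2.1, h3]
    change sec F (fun j => θ (ι (p j))) (fun j => θ (ι (v0 j) + Polynomial.X * ι (v1 j - v0 j))) j =
      sec F p (fun j => v0 j + s * (v1 j - v0 j)) j
    congr 1
    · funext j
      exact h1 _
    · funext j
      rw [map_add, map_mul, h1, h1, h2]
  have hA : ∀ (y : Fin N → E) (s : E), ev2 A y s = lf F (Qf s) y := by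
    intro y s
    obtain ⟨θ, t1, t2, t3, t4⟩ := hθ y s
    obtain ⟨q1, q2⟩ := hQ3 y s θ t2 t4
    rw [← t1]
    change θ (lf F3 Q3 Y3) = _
    rw [(hNAT _ _ θ N F3).1, q1, q2]
    congr 1
    funext j
    exact t3 j
  have hB : ∀ (y : Fin N → E) (s : E), ev2 B y s = lf F y (Qf s) * lf F (Qf s) e0 := by
    intro y s
    obtain ⟨θ, t1, t2, t3, t4⟩ := hθ y s
    obtain ⟨q1, q2⟩ := hQ3 y s θ t2 t4
    rw [← t1]
    change θ (lf F3 Y3 Q3 * lf F3 Q3 (fun j => ι (e0 j))) = _
    rw [map_mul, (hNAT _ _ θ N F3).1, (hNAT _ _ θ N F3).1, q1, q2]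
    have e1 : (fun j => θ (Y3 j)) = y := by
      funext j
      exact t3 j
    have e2 : (fun j => θ (ι (e0 j))) = e0 := by
      funext j
      exact t2 _
    rw [e1, e2]
  obtain ⟨y', s, h1, h2, h3, h4⟩ := hPSD E N F g A B y0 0 1 hirr ⟨y, hy, hg⟩ Fy0
    (by rw [hA, Qf0, lQy]) (by rw [hB, Qf0]; exact mul_ne_zero c3 c2) (by rw [hA, Qf1]; exact c4)
  rw [hA] at h3
  rw [hB] at h4
  have h5 : lf F y' (Qf s) ≠ 0 := left_ne_zero_of_mul h4
  have h6 : lf F (Qf s) e0 ≠ 0 := right_ne_zero_of_mul h4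
  set Q : Fin N → E := Qf s with hQ
  set vs : Fin N → E := fun j => v0 j + s * (v1 j - v0 j) with hvs
  have lvs : lf F p vs = 0 := by
    have h := (hTAY E N F).1 p v0 v1 (1 - s) s
    have e : (fun j => (1 - s) * v0 j + s * v1 j) = vs := by
      funext j
      rw [hvs]
      ring
    rw [e, l0, l1] at h
    rw [h]
    ring
  -- the parameters
  obtain ⟨τ, hτ⟩ := IsAlgClosed.exists_pow_nat_eq (-(lf F y' Q)⁻¹) (n := 3) (by norm_num)
  set v' : Fin N → E := fun j => (lf F p e0)⁻¹ * vs j with hv'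
  set w' : Fin N → E := fun j => (τ / lf F Q e0) * y' j with hw'
  have sc : ∀ (x z : Fin N → E) (c : E), lf F x (fun j => c * z j) = c * lf F x z := by
    intro x z c
    have h := (hTAY E N F).1 x z z c 0
    have e : (fun j => c * z j + 0 * z j) = fun j => c * z j := by
      funext j
      ring
    rw [e] at h
    rw [h]
    ring
  have t1 : tg F p e0 v' = vs := by
    funext j
    unfold tg
    rw [hv', sc, lvs]
    field_simp
    ring
  have t2 : qq F p v' = Q := by
    unfold qq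
    rw [← he0, t1]
  have t3 : tg F Q e0 w' = fun j => τ * y' j := by
    funext j
    unfold tg
    rw [hw', sc, h3]
    field_simp
    ring
  have t4 : eval (fun j => τ * y' j) F = 0 := by
    have h := ((hTAY E N F).2.2 hF y' y' τ 0).2.2
    have e : (fun j => τ * y' j + 0 * y' j) = fun j => τ * y' j := by
      funext j
      ring
    rw [e, h1] at h
    rw [h]
    ring
  have t5 : phi3 F p v' w' = y' := by
    have e : phi3 F p v' w' = sec F (qq F p v') (tg F (qq F p v') e0 w') := rfl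
    rw [e, t2, t3]
    funext j
    unfold sec
    rw [t4, ((hTAY E N F).2.2 hF y' Q τ 0).2.1]
    have : 0 * Q j - τ ^ 2 * lf F y' Q * (τ * y' j) = -(τ ^ 3) * lf F y' Q * y' j := by ring
    rw [this, hτ, neg_neg, inv_mul_cancel₀ h5, one_mul]
  exact ⟨v', w', by rw [t5]; exact h2⟩

end Pool.Agent.DQ2.H19
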