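import Pool.Agent.DQ2.Stmts

set_option autoImplicit false

/-!
# Squad DQ2 (MP_366d03_ag), row FLD: `F(X^k, 1, 0, .., 0)` is irreducible
-/

namespace Pool.Agent.DQ2.H19

open MvPolynomial

/-- the exponent `x_0^i x_1^(d-i)` -/
noncomputable def mi (n d i : ℕ) : Fin (n + 2) →₀ ℕ :=
  Finsupp.single 0 i + Finsupp.single 1 (d - i)

theorem mi_zero (n d i : ℕ) : mi n d i 0 = i := by
  unfold mi
  have h : (1 : Fin (n + 2)) ≠ 0 := by
    intro h
    have := congrArg Fin.val h
    simp at this
  simp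

theorem mi_one (n d i : ℕ) : mi n d i 1 = d - i := by
  unfold mi
  have h : (0 : Fin (n + 2)) ≠ 1 := by
    intro h
    have := congrArg Fin.val h
    simp at this
  simp [h]

theorem mi_degree (n d i : ℕ) (hi : i ≤ d) : (mi n d i).degree = d := by
  unfold mi
  rw [map_add, Finsupp.degree_single, Finsupp.degree_single]
  omega

theorem mi_succ (n d i : ℕ) (l : Fin n) : mi n d i l.succ.succ = 0 := by
  unfold mi
  have h0 : (0 : Fin (n + 2)) ≠ l.succ.succ := (Fin.succ_ne_zero _).symm
  have h1 : (1 : Fin (n + 2)) ≠ l.succ.succ := by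
    intro h
    have := congrArg Fin.val h
    simp at this
  simp [h0, h1]

theorem mi_inj (n d : ℕ) : Function.Injective (mi n d) := by
  intro i j h
  have := DFunLike.congr_fun h 0
  rwa [mi_zero, mi_zero] at this

theorem eq_mi (n d : ℕ) (m : Fin (n + 2) →₀ ℕ) (hm : m.degree = d)
    (h : ∀ l : Fin n, m l.succ.succ = 0) : m 0 ≤ d ∧ m = mi n d (m 0) := by
  have hd : m 0 + m 1 = d := by
    rw [← hm, Finsupp.degree_eq_sum, Fin.sum_univ_succ, Fin.sum_univ_succ]
    have : ∑ i : Fin n, m i.succ.succ = 0 := Finset.sum_eq_zero fun i _ => h i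
    rw [this]
    rfl
  refine ⟨by omega, ?_⟩
  ext l
  refine Fin.cases ?_ (fun l => ?_) l
  · rw [mi_zero]
  · refine Fin.cases ?_ (fun l => ?_) l
    · change m 1 = mi n d (m 0) 1
      rw [mi_one]
      omega
    · rw [h l, mi_succ]

theorem prod_pt {R : Type} [CommRing R] (n : ℕ) (s : R) (m : Fin (n + 2) →₀ ℕ) :
    ∏ i, pt (n + 2) s i ^ m i = if (∀ l : Fin n, m l.succ.succ = 0) then s ^ m 0 else 0 := by
  rw [Fin.prod_univ_succ, Fin.prod_univ_succ]
  have e0 : pt (n + 2) s 0 = s := by
    unfold pt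
    simp
  have e1 : pt (n + 2) s (Fin.succ 0) = 1 := by
    unfold pt
    simp
  have e2 : ∀ l : Fin n, pt (n + 2) s l.succ.succ = 0 := by
    intro l
    unfold pt
    simp
  rw [e0, e1, one_pow, one_mul]
  by_cases h : ∀ l : Fin n, m l.succ.succ = 0
  · rw [if_pos h]
    have : ∏ i : Fin n, pt (n + 2) s i.succ.succ ^ m i.succ.succ = 1 :=
      Finset.prod_eq_one fun i _ => by rw [h i, pow_zero]
    rw [this, mul_one]
  · rw [if_neg h]
    obtain ⟨l, hl⟩ := not_forall.1 h
    have : ∏ i : Fin n, pt (n + 2) s i.succ.succ ^ m i.succ.succ = 0 :=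
      Finset.prod_eq_zero (Finset.mem_univ l) (by rw [e2 l, zero_pow hl])
    rw [this, mul_zero]

theorem fk_eq (n d k : ℕ) : fk n d k = ∑ i ∈ Finset.range (d + 1),
    Polynomial.C (LDP.cf n d (mi n d i)) * (Polynomial.X : Polynomial (LDP.AA n d)) ^ (k * i) := by
  unfold fk LDP.FA
  rw [map_sum, map_sum]
  have h1 : ∀ m : Fin (n + 2) →₀ ℕ, eval (pt (n + 2) ((Polynomial.X : Polynomial (LDP.AA n d)) ^ k))
      (map (Polynomial.C : LDP.AA n d →+* Polynomial (LDP.AA n d)) (monomial m (LDP.cf n d m))) =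
      Polynomial.C (LDP.cf n d m) * (if (∀ l : Fin n, m l.succ.succ = 0) then
        (Polynomial.X ^ k) ^ m 0 else 0) := by
    intro m
    rw [map_monomial, eval_monomial, Finsupp.prod_fintype _ _ (fun i => pow_zero _), prod_pt]
  rw [Finset.sum_congr rfl fun m _ => h1 m]
  symm
  rw [← Finset.sum_subset (s₁ := (Finset.range (d + 1)).image (mi n d))]
  · rw [Finset.sum_image fun i _ j _ h => mi_inj n d h]
    refine Finset.sum_congr rfl fun i _ => ?_
    rw [if_pos (mi_succ n d i), mi_zero, pow_mul]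
  · intro m hm
    obtain ⟨i, hi, rfl⟩ := Finset.mem_image.1 hm
    rw [Finset.mem_range] at hi
    rw [Finset.mem_finsuppAntidiag]
    refine ⟨?_, fun x _ => Finset.mem_univ x⟩
    have := mi_degree n d i (by omega)
    rw [Finsupp.degree_eq_sum] at this
    exact this
  · intro m hm hm'
    rw [Finset.mem_finsuppAntidiag] at hm
    by_cases h : ∀ l : Fin n, m l.succ.succ = 0
    · have hd : m.degree = d := by
        rw [Finsupp.degree_eq_sum]
        exact hm.1
      obtain ⟨h2, h3⟩ := eq_mi n d m hd h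
      exact absurd (Finset.mem_image.2 ⟨m 0, Finset.mem_range.2 (by omega), h3.symm⟩) hm'
    · rw [if_neg h, mul_zero]

theorem cf_mi (n d i : ℕ) (hi : i < d) : ∃ v : LDP.Coef n d, LDP.cf n d (mi n d i) = X v := by
  have h : (mi n d i).degree = d ∧ mi n d i ≠ Finsupp.single 0 d := by
    refine ⟨mi_degree n d i hi.le, fun h => ?_⟩
    have := DFunLike.congr_fun h 0
    rw [mi_zero, Finsupp.single_eq_same] at this
    omega
  refine ⟨⟨mi n d i, h⟩, ?_⟩
  unfold LDP.cf
  rw [dif_pos h]

theorem cf_top (n d : ℕ) : LDP.cf n d (mi n d d) = 1 := by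
  have e : mi n d d = Finsupp.single 0 d := by
    unfold mi
    rw [Nat.sub_self, Finsupp.single_zero, add_zero]
  unfold LDP.cf
  rw [dif_neg]
  rw [e]
  exact fun h => h.2 rfl

theorem X_notMem {σ : Type} (v : σ) :
    (X v : MvPolynomial σ ℂ) ∉ (RingHom.ker (constantCoeff : MvPolynomial σ ℂ →+* ℂ)) ^ 2 := by
  classical
  intro hv
  let ψ : MvPolynomial σ ℂ →+* Polynomial ℂ :=
    (aeval fun c : σ => if c = v then (Polynomial.X : Polynomial ℂ) else 0 :
      MvPolynomial σ ℂ →ₐ[ℂ] Polynomial ℂ).toRingHom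
  have hψ : (Polynomial.evalRingHom (0 : ℂ)).comp ψ = constantCoeff := by
    refine ringHom_ext (fun a => ?_) (fun c => ?_)
    · simp [ψ]
    · simp only [ψ, RingHom.comp_apply, AlgHom.toRingHom_eq_coe, RingHom.coe_coe, aeval_X,
        Polynomial.coe_evalRingHom, constantCoeff_X]
      split_ifs <;> simp
  have hX : ∀ r : MvPolynomial σ ℂ, r ∈ RingHom.ker (constantCoeff : MvPolynomial σ ℂ →+* ℂ) →
      (Polynomial.X : Polynomial ℂ) ∣ ψ r := by
    intro r hr
    rw [Polynomial.X_dvd_iff, Polynomial.coeff_zero_eq_eval_zero]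
    have := RingHom.congr_fun hψ r
    rw [RingHom.mem_ker] at hr
    rw [hr] at this
    exact this
  have hle : (RingHom.ker (constantCoeff : MvPolynomial σ ℂ →+* ℂ)) ^ 2 ≤
      Ideal.comap ψ (Ideal.span {(Polynomial.X : Polynomial ℂ) ^ 2}) := by
    rw [sq, Ideal.mul_le]
    intro r hr s hs
    rw [Ideal.mem_comap, Ideal.mem_span_singleton, map_mul, sq]
    exact mul_dvd_mul (hX r hr) (hX s hs)
  have h1 := hle hv
  rw [Ideal.mem_comap, Ideal.mem_span_singleton] at h1
  have h2 : ψ (X v) = Polynomial.X := by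
    simp [ψ]
  rw [h2, Polynomial.X_pow_dvd_iff] at h1
  have := h1 1 (by norm_num)
  rw [Polynomial.coeff_X_one] at this
  exact one_ne_zero this

theorem fld (_hHOM : HOM) : FLD := by
  intro n d k hd hk
  have hlow : (∑ i ∈ Finset.range d, Polynomial.C (LDP.cf n d (mi n d i)) *
      (Polynomial.X : Polynomial (LDP.AA n d)) ^ (k * i)).degree < ((k * d : ℕ) : WithBot ℕ) := by
    refine lt_of_le_of_lt (Polynomial.degree_sum_le _ _) ?_
    rw [Finset.sup_lt_iff (WithBot.bot_lt_coe _)]
    intro i hi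
    rw [Finset.mem_range] at hi
    refine lt_of_le_of_lt (Polynomial.degree_C_mul_X_pow_le _ _) ?_
    exact_mod_cast Nat.mul_lt_mul_of_pos_left hi (by omega)
  have hfk : fk n d k = Polynomial.X ^ (k * d) + ∑ i ∈ Finset.range d,
      Polynomial.C (LDP.cf n d (mi n d i)) * (Polynomial.X : Polynomial (LDP.AA n d)) ^ (k * i) := by
    rw [fk_eq, Finset.sum_range_succ, cf_top, Polynomial.C_1, one_mul, add_comm]
  have hmon : (fk n d k).Monic := by
    rw [hfk]
    exact Polynomial.monic_X_pow_add hlow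
  have hdeg : (fk n d k).natDegree = k * d := by
    rw [hfk]
    exact Polynomial.natDegree_eq_of_degree_eq_some (by
      rw [Polynomial.degree_add_eq_left_of_degree_lt (by rwa [Polynomial.degree_X_pow]),
        Polynomial.degree_X_pow])
  refine ⟨hmon, hdeg, ?_⟩
  have hkd : 0 < k * d := Nat.mul_pos (by omega) (by omega)
  have hmap : (fk n d k).map (constantCoeff : LDP.AA n d →+* ℂ) = Polynomial.X ^ (k * d) := by
    rw [hfk, Polynomial.map_add, Polynomial.map_pow, Polynomial.map_X, Polynomial.map_sum]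
    rw [Finset.sum_eq_zero, add_zero]
    intro i hi
    rw [Finset.mem_range] at hi
    obtain ⟨v, hv⟩ := cf_mi n d i hi
    rw [Polynomial.map_mul, Polynomial.map_C, hv, constantCoeff_X, Polynomial.C_0, zero_mul]
  have hirr : Irreducible (fk n d k) := by
    refine Polynomial.irreducible_of_eisenstein_criterion
      (P := RingHom.ker (constantCoeff : LDP.AA n d →+* ℂ)) (RingHom.ker_isPrime _) ?_ ?_ ?_ ?_
      hmon.isPrimitive
    · rw [hmon.leadingCoeff, RingHom.mem_ker, map_one]
      exact one_ne_zero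
    · intro t ht
      rw [Polynomial.degree_eq_natDegree hmon.ne_zero, hdeg] at ht
      have ht' : t < k * d := by exact_mod_cast ht
      rw [RingHom.mem_ker, ← Polynomial.coeff_map, hmap, Polynomial.coeff_X_pow, if_neg ht'.ne]
    · rw [Polynomial.degree_eq_natDegree hmon.ne_zero, hdeg]
      exact_mod_cast hkd
    · obtain ⟨v, hv⟩ := cf_mi n d 0 (by omega)
      have h0 : (fk n d k).coeff 0 = LDP.cf n d (mi n d 0) := by
        rw [fk_eq, Polynomial.finsetSum_coeff, Finset.sum_eq_single 0]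
        · rw [mul_zero, pow_zero, mul_one, Polynomial.coeff_C_zero]
        · intro i _ hi
          rw [Polynomial.coeff_C_mul, Polynomial.coeff_X_pow, if_neg, mul_zero]
          exact (Nat.mul_pos (by omega) (by omega)).ne
        · intro h
          exact absurd (Finset.mem_range.2 (by omega)) h
      rw [h0, hv]
      exact X_notMem v
  exact (hmon.irreducible_iff_irreducible_map_fraction_map (K := LDP.KK n d)).1 hirr

end Pool.Agent.DQ2.H19
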